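import Pool.Agent.Helper39.Trans.Lin

/-!
# Pure vertices with one active group (packet E of MP_549fdb_co)
-/

namespace Pool.Agent.Helper39.Trans

open Finset Classical Matrix

namespace Sys

variable {n : ℕ} {ι Λ κ : Type} [Fintype ι] [Fintype Λ] [Fintype κ] (A : Sys n ι Λ κ)

omit [Fintype ι] [Fintype Λ] [Fintype κ] in
theorem h_vert (t : Fin n) (v : ι) (q : Fin n → ℝ) (s : ℝ) :
    A.h v (q + s • Pi.single t 1) = A.h v q + s * A.a v t := by
  simp only [h, dotProduct_add, dotProduct_smul, smul_eq_mul, dotProduct_single, mul_one]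
  ring

omit [Fintype Λ] [Fintype κ] in
theorem W_vert {t : Fin n} {sg : Λ → ℝ} (hv : ∀ v, A.a v t = sg (A.grp v)) (l : Λ)
    (q : Fin n → ℝ) (s : ℝ) : A.W l (q + s • Pi.single t 1) = A.W l q := by
  ext v
  simp only [W, fib, mem_filter, mem_univ, true_and]
  refine and_congr_right fun hl => forall_congr' fun w => ?_
  refine imp_congr_right fun hw => ?_
  rw [h_vert, h_vert, hv, hv, hl, hw, add_le_add_iff_right]

omit [Fintype κ] in
theorem card_Jg_le (q : Fin n → ℝ) : (A.Jg q).card ≤ ∑ l, ((A.W l q).card - 1) := by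
  rw [Jg, card_filter]
  refine sum_le_sum fun l _ => ?_
  split_ifs with h <;> omega

end Sys

theorem zeroBound (n : ℕ) (κ : Type) [Fintype κ] :
    LinFacts n κ → CountDef n κ → ZeroBound n κ := by
  intro hLin hCD
  obtain ⟨C0, hC0⟩ := hCD
  refine ⟨2, ?_⟩
  intro ι Λ _ _ A t hF hG hV hT hn
  have hfin : (A.DefSet ∅ univ).Finite := (hC0 ι Λ A hF hG ∅ univ (disjoint_empty_left _)).1
  obtain ⟨sg, hsg, hat⟩ := hV
  have hsg2 : ∀ l, sg l * sg l = 1 := by
    intro l
    rcases hsg l with h | h <;> rw [h] <;> norm_num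
  -- the structure of a pure vertex
  have key : ∀ q, q ∈ {q ∈ A.PureSet 0 ∅ univ | ∀ l, ¬ A.In l q} →
      ∃ (σ : ℝ) (s : ℝ), (∃ i, A.Act i q ∧ sg i = σ) ∧
        (q + s • Pi.single t 1) ∈ A.DefSet ∅ univ := by
    intro q hq
    obtain ⟨⟨⟨hbox, hcnt⟩, hD, hI, -, -⟩, hIn⟩ := hq
    have hI' : (univ.filter fun l => A.Act l q).card = 1 := hI
    have hcnt' : ∑ l, ((A.W l q).card - 1) + (univ.filter fun l => A.Act l q).card +
        (A.Bt q).card = n := hcnt
    have hJle := A.card_Jg_le q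
    have hDle : (A.Dg q).card ≤ (A.Ig q).card + (A.Jg q).card := card_union_le _ _
    have hIpos : 0 < (A.Ig q).card := by omega
    obtain ⟨i, hi⟩ := card_pos.1 hIpos
    have hact : A.Act i q := (mem_filter.1 hi).2
    have hJcard : (A.Jg q).card = n - 1 := by omega
    have hsum : ∑ l, ((A.W l q).card - 1) = n - 1 := by omega
    have hJpos : 0 < (A.Jg q).card := by omega
    obtain ⟨j, hj⟩ := card_pos.1 hJpos
    obtain ⟨v, hv⟩ := A.W_nonempty hF j q
    have hvj : A.grp v = j := (A.mem_W.1 hv).1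
    refine ⟨sg i, -(A.h v q) * sg j, ⟨i, hact, rfl⟩, ?_⟩
    set y : Fin n → ℝ := q + (-(A.h v q) * sg j) • Pi.single t 1 with hy
    have hW : ∀ l, A.W l y = A.W l q := fun l => A.W_vert hat l q _
    have hh : A.h v y = 0 := by
      rw [hy, A.h_vert, hat, hvj]
      have := hsg2 j
      linear_combination (-(A.h v q)) * this
    have hactj : A.Act j y := ⟨v, by rw [hW]; exact hv, hh⟩
    have hboxy : A.Box y := by
      refine hT q y hbox (fun i hi => ?_) ⟨v, hh⟩
      simp [hy, Pi.single_eq_of_ne hi]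
    have hcy : A.cnt univ y ≤ n := (hLin ι Λ A hF hG univ y hboxy).1
    have hcy' : A.cnt univ y = ∑ l, ((A.W l q).card - 1) +
        (univ.filter fun l => A.Act l y).card + (A.Bt y).card := by
      simp only [Sys.cnt, hW]
    have hIy : j ∈ A.Ig y := mem_filter.2 ⟨mem_univ _, hactj⟩
    have hIyc : (univ.filter fun l => A.Act l y).card = (A.Ig y).card := rfl
    have hIy1 : 0 < (A.Ig y).card := card_pos.2 ⟨j, hIy⟩
    have hcyn : A.cnt univ y = n := by omega
    have hIy2 : (A.Ig y).card = 1 := by omega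
    have hIy3 : A.Ig y = {j} := by
      obtain ⟨a, ha⟩ := card_eq_one.1 hIy2
      rw [ha] at hIy ⊢
      rw [mem_singleton.1 hIy]
    have hJy : A.Jg y = A.Jg q := by
      simp only [Sys.Jg, hW]
    have hDy : A.Dg y = A.Jg q := by
      rw [Sys.Dg, hIy3, hJy]
      exact union_eq_right.2 (singleton_subset_iff.2 hj)
    refine ⟨⟨hboxy, hcyn⟩, ?_, ?_, empty_subset _⟩
    · rw [hDy]; omega
    · exact subset_trans (subset_univ _) subset_union_right
  choose! σ s hact hdef using key
  let F : (Fin n → ℝ) → (Fin n → ℝ) × Bool :=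
    fun q => (q + s q • Pi.single t 1, decide (σ q = 1))
  have hmaps : ∀ q ∈ {q ∈ A.PureSet 0 ∅ univ | ∀ l, ¬ A.In l q},
      F q ∈ (A.DefSet ∅ univ) ×ˢ (Set.univ : Set Bool) :=
    fun q hq => ⟨hdef q hq, trivial⟩
  have hinj : Set.InjOn F {q ∈ A.PureSet 0 ∅ univ | ∀ l, ¬ A.In l q} := by
    intro q hq q' hq' hFF
    have h1 : q + s q • Pi.single t 1 = q' + s q' • Pi.single t 1 := congrArg Prod.fst hFF
    have h2 : decide (σ q = 1) = decide (σ q' = 1) := congrArg Prod.snd hFF
    obtain ⟨i, hi, hiσ⟩ := hact q hq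
    obtain ⟨i', hi', hiσ'⟩ := hact q' hq'
    rw [← hiσ, ← hiσ'] at h2
    have hs : sg i = sg i' := by
      rcases hsg i with h | h <;> rcases hsg i' with h' | h' <;> rw [h, h'] at h2 ⊢ <;>
        norm_num at h2
    have hqq : q' = q + (s q - s q') • Pi.single t 1 := by
      rw [sub_smul]
      rw [← add_sub_assoc, h1, add_sub_cancel_right]
    set r := s q - s q' with hr
    obtain ⟨v, hv⟩ := A.W_nonempty hF i q
    have hv0 : A.h v q = 0 := A.h_eq_zero_of_act hi hv
    have hvg : A.grp v = i := (A.mem_W.1 hv).1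
    have hv' : v ∈ A.W i q' := by rw [hqq, A.W_vert hat]; exact hv
    have hle1 : A.h v q' ≤ 0 := by
      by_contra h
      exact hq'.2 _ ((A.in_iff hv').2 (not_le.1 h))
    obtain ⟨w, hw⟩ := A.W_nonempty hF i' q'
    have hw0 : A.h w q' = 0 := A.h_eq_zero_of_act hi' hw
    have hwg : A.grp w = i' := (A.mem_W.1 hw).1
    have hw' : w ∈ A.W i' q := by
      rw [hqq, A.W_vert hat] at hw; exact hw
    have hle2 : A.h w q ≤ 0 := by
      by_contra h
      exact hq.2 _ ((A.in_iff hw').2 (not_le.1 h))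
    rw [hqq, A.h_vert, hat, hvg, hv0, zero_add] at hle1
    rw [hqq, A.h_vert, hat, hwg, ← hs] at hw0
    have hr0 : r * sg i = 0 := by linarith
    have : r = 0 := by
      have h3 := hsg2 i
      have : r * (sg i * sg i) = 0 := by rw [← mul_assoc, hr0, zero_mul]
      rwa [h3, mul_one] at this
    rw [hqq, this, zero_smul, add_zero]
  have hle := Set.ncard_le_ncard_of_injOn F hmaps hinj (hfin.prod Set.finite_univ)
  refine hle.trans ?_
  rw [Set.ncard_prod]
  simp [mul_comm]

end Pool.Agent.Helper39.Trans
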